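import Pool.Agent.N734.MZ.Mu

/-!
# Relations of one family which hold for another one (helper553, after `Pool.Agent.N734.MZ.back` of helper734)
-/

set_option autoImplicit false

namespace Pool.Agent.U553.GT

open Finset Pool.Agent.Y760.ZF
open Pool.Agent.X90.DB (Ad ex ex_nil ex_ne ad_ne ix)
open Pool.Agent.X90.DC
open Pool.Agent.N734.MZ

/-- relations with one large argument and bounded coefficients are enough, for two families with the stuffle product -/
theorem back {σ : Type} (g : σ → List ℕ) (hg : ∀ i, Ad (g i)) (R : Type) [CommRing R] [Algebra ℚ R]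
    (Y : List ℕ → R) (hY : St Y) (A : Type) [CommRing A] [IsDomain A]
    [Algebra ℚ A] (Z : List ℕ → A) (hZ : St Z) (s0 : ℕ) (hne : ∀ s, s0 ≤ s → Odd s → Z [s] ≠ 0)
    (hc : ∀ (r : ℕ) (w : Fin r → List (Lr 1)), (∀ i, Ge (w i) ∧ One (w i)) → ∀ B s1 : ℕ,
      ∃ s, s1 ≤ s ∧ Odd s ∧ ∀ a : Fin r → ℤ, (∀ i, |a i| ≤ B) →
        ∑ i, (a i : R) * Y (ix (fun _ => s) (w i)) = 0 → ∑ i, (a i : A) * Z (ix (fun _ => s) (w i)) = 0)
    (f : MvPolynomial σ ℚ) (hf : MvPolynomial.aeval (fun i => Y (g i)) f = 0) :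
    MvPolynomial.aeval (fun i => Z (g i)) f = 0 := by
  obtain ⟨d, hd, c0, L, hL, hlin⟩ := lin g hg f
  set L0 : List (ℤ × List ℕ) := (c0, []) :: L with hL0
  have hL0' : ∀ e ∈ L0, e.2 = [] ∨ Ad e.2 := by
    intro e he
    rw [hL0, List.mem_cons] at he
    rcases he with rfl | he
    · exact Or.inl rfl
    · exact Or.inr (hL e he)
  set L1 : List (ℤ × List (Lr 1)) := L0.flatMap fun e => (psti (fp e.2) [Sl]).map fun x => (e.1, x) with hL1
  have hL1' : ∀ e ∈ L1, Ge e.2 ∧ One e.2 := by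
    intro e he
    rw [hL1, List.mem_flatMap] at he
    obtain ⟨e', he', hx⟩ := he
    rw [List.mem_map] at hx
    obtain ⟨x, hx, rfl⟩ := hx
    exact ⟨ins_ge _ (hL0' e' he') x hx, ins_one _ x hx⟩
  have key : ∀ (A : Type) [CommRing A] [Algebra ℚ A] (Z : List ℕ → A), St Z → ∀ s, 2 ≤ s →
      ∑ i : Fin L1.length, ((L1.get i).1 : A) * Z (ix (fun _ => s) (L1.get i).2) =
        (d : A) * MvPolynomial.aeval (fun i => Z (g i)) f * Z [s] := by
    intro A _ _ Z hZ s hs
    rw [← sum_list L1 fun e => (e.1 : A) * Z (ix (fun _ => s) e.2), hL1, sum_flat, hlin A Z hZ]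
    have h2 : ∀ e ∈ L0, (((psti (fp e.2) [Sl]).map fun x => (e.1, x)).map
        fun e : ℤ × List (Lr 1) => (e.1 : A) * Z (ix (fun _ => s) e.2)).sum =
          (e.1 : A) * (ex Z e.2 * Z [s]) := by
      intro e he
      rw [← ins_sum Z hZ s hs e.2 (hL0' e he), ← List.sum_map_mul_left, List.map_map]
      rfl
    rw [List.map_congr_left h2, hL0, List.map_cons, List.sum_cons, ex_nil, add_mul, one_mul,
      ← List.sum_map_mul_right]
    congr 2
    refine List.map_congr_left fun e he => ?_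
    rw [ex_ne Z (ad_ne (hL e he)), mul_assoc]
  obtain ⟨s, hs1, hs2, hs3⟩ := hc L1.length (fun i => (L1.get i).2) (fun i => hL1' _ (List.get_mem _ _))
    (∑ i : Fin L1.length, (L1.get i).1.natAbs) (s0 + 2)
  have h3 := hs3 (fun i => (L1.get i).1) (fun i => by
    have h4 : (L1.get i).1.natAbs ≤ ∑ i : Fin L1.length, (L1.get i).1.natAbs :=
      single_le_sum (f := fun i : Fin L1.length => (L1.get i).1.natAbs) (fun _ _ => Nat.zero_le _) (mem_univ i)
    rw [Int.abs_eq_natAbs]
    exact_mod_cast h4) (by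
    rw [key R Y hY s (by omega), hf, mul_zero, zero_mul])
  rw [key A Z hZ s (by omega)] at h3
  rcases mul_eq_zero.1 h3 with h4 | h4
  · rcases mul_eq_zero.1 h4 with h5 | h5
    · exfalso
      have h6 : algebraMap ℚ A (d : ℚ) = 0 := by rw [map_natCast, h5]
      have h7 : (d : ℚ) = 0 := (algebraMap ℚ A).injective (by rw [h6, map_zero])
      have h8 : d = 0 := by exact_mod_cast h7
      omega
    · exact h5
  · exact absurd h4 (hne s (by omega) hs2)

/-- the relations with `l` follow from the relations between the values of `Y`, if there is a homomorphism with `l ↦ -l`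
which fixes the values -/
theorem mu_of {σ : Type} (g : σ → List ℕ) (i₂ : σ) (h2 : g i₂ = [2]) {R : Type} [CommRing R] [Algebra ℚ R]
    (l : R) (Y : List ℕ → R) (hl : l ^ 2 = -24 * Y [2]) (c : R →ₐ[ℚ] R) (hcl : c l = -l)
    (hcY : ∀ i, c (Y (g i)) = Y (g i)) {A : Type} [CommRing A] [IsDomain A] [Algebra ℚ A] (y : A) (Z : List ℕ → A)
    (hy : y ^ 2 = -24 * Z [2])
    (h : ∀ f : MvPolynomial σ ℚ, MvPolynomial.aeval (fun i => Y (g i)) f = 0 →
      MvPolynomial.aeval (fun i => Z (g i)) f = 0) (f : MvPolynomial (Fin 1 ⊕ σ) ℚ)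
    (hf : MvPolynomial.aeval (Sum.elim (fun _ => l) fun i => Y (g i)) f = 0) :
    MvPolynomial.aeval (Sum.elim (fun _ => y) fun i => Z (g i)) f = 0 := by
  obtain ⟨f₀, f₁, hs⟩ := split_mu g i₂ h2 f
  have h3 := hs R l Y hl
  rw [hf] at h3
  have hc : ∀ q : MvPolynomial σ ℚ, c (MvPolynomial.aeval (fun i => Y (g i)) q) =
      MvPolynomial.aeval (fun i => Y (g i)) q := by
    intro q
    rw [← AlgHom.comp_apply]
    congr 1
    refine MvPolynomial.algHom_ext fun i => ?_
    rw [AlgHom.comp_apply, MvPolynomial.aeval_X, hcY]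
  have h4 := congrArg c h3
  rw [map_zero, map_add, map_mul, hc, hc, hcl] at h4
  set a := MvPolynomial.aeval (fun i => Y (g i)) f₀ with ha
  set b := MvPolynomial.aeval (fun i => Y (g i)) f₁ with hb
  have h5 : (2 : R) * a = 0 := by linear_combination -h3 - h4
  have h6 : a = 0 := by
    have h7 : algebraMap ℚ R (1 / 2) * (2 * a) = a := by
      have h8 : (2 : R) = algebraMap ℚ R 2 := (map_ofNat (algebraMap ℚ R) 2).symm
      rw [← mul_assoc, h8, ← map_mul]
      norm_num
    rw [← h7, h5, mul_zero]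
  have h9 : l * b = 0 := by rw [h6, zero_add] at h3; exact h3.symm
  have h10 : MvPolynomial.aeval (fun i => Y (g i)) (MvPolynomial.X i₂ * f₁) = 0 := by
    rw [map_mul, MvPolynomial.aeval_X, h2, ← hb]
    have h11 : (24 : R) * (Y [2] * b) = 0 := by linear_combination -(l * h9) + b * hl
    have h12 : algebraMap ℚ R (1 / 24) * (24 * (Y [2] * b)) = Y [2] * b := by
      have h8 : (24 : R) = algebraMap ℚ R 24 := (map_ofNat (algebraMap ℚ R) 24).symm
      rw [← mul_assoc, h8, ← map_mul]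
      norm_num
    rw [← h12, h11, mul_zero]
  have h13 := h _ h10
  rw [map_mul, MvPolynomial.aeval_X, h2] at h13
  have h14 : y * (y * MvPolynomial.aeval (fun i => Z (g i)) f₁) = 0 := by
    linear_combination MvPolynomial.aeval (fun i => Z (g i)) f₁ * hy - 24 * h13
  rw [hs A y Z hy, h f₀ h6, zero_add]
  rcases mul_eq_zero.1 h14 with h15 | h15
  · rw [h15, zero_mul]
  · exact h15

end Pool.Agent.U553.GT
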